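import Pool.Agent.Lib.MP_1fb68e_nt.L2.MAIN

/-!
# The least factorial root of `-1` modulo `p`, with local disorder in the factorial

For an odd prime `p` and a permutation `τ` of `1, .., (p - 1) / 2` consider the partial products,
modulo `p`, of `τ(1), .., τ((p - 1) / 2), -τ((p - 1) / 2), .., -τ(1)`. For `τ = 1` they are the
factorials `n!`, `n < p`, and `Late p 1` says that `p - 1` is the least root `f(p)` of `n! = -1`.

Model: `τ = σ ρ`, where `σ` and `ρ` are independent and uniformly distributed among the permutations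
which preserve each block of a partition into blocks of length `2 M(p)` (the last block has a length
between `2 M(p)` and `4 M(p)`); the blocks of `ρ` are shifted by `M(p)` and the first one has length
`M(p)`. The `τ` for different primes are independent.

Theorem. If `M(n) / (log n) ^ 88 → ∞` and `M(n) / n → 0` then almost surely, for a proportion
`exp (-3 / 4) + o(1)` of the primes `p ≤ x` with `((p - 1) / 2)! ≠ -1` (among them are the primes
`1` modulo `4`), the value `-1` is reached for the first time at `p - 1`. In particular the analogue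
of the assertion of Q1 is almost surely false, for disorder with a range of `(log p) ^ 89`.
-/

set_option autoImplicit false

namespace Pool.Agent.Results.MP_1fb68e_nt.LocalShuffle

open Filter Topology MeasureTheory MP1fb.LS MP1fb.L2

theorem result (M : ℕ → ℕ)
    (hM1 : Tendsto (fun n : ℕ => (M n : ℝ) / Real.log n ^ 88) atTop atTop)
    (hM2 : Tendsto (fun n : ℕ => (M n : ℝ) / n) atTop (𝓝 0)) :
    (∃ (Ω : Type) (_ : MeasurableSpace Ω) (μ : Measure Ω) (T : ∀ p : ℕ, Ω → PP p),
      IsProbabilityMeasure μ ∧ Shuffles μ M T) ∧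
    (∀ (p : ℕ) (z : PP p), 0 < M p → law2 p (M p) z ≠ 0 → ∀ i : Fin (p / 2),
      |((z.1 (z.2 i) : ℕ) : ℤ) - ((i : ℕ) : ℤ)| < 8 * M p) ∧
    ∀ (Ω : Type) [MeasurableSpace Ω] (μ : Measure Ω) [IsProbabilityMeasure μ]
      (T : ∀ p : ℕ, Ω → PP p), Shuffles μ M T → ∀ᵐ w ∂μ,
        Tendsto (fun x : ℕ => cntP (fun p => Late p ((T p w).1 * (T p w).2)) x /
          cntP MidOk x) atTop (𝓝 (Real.exp (-(3 / 4)))) ∧
        ∀ c : ℝ, c < Real.exp (-(3 / 4)) / 2 → ∀ᶠ x : ℕ in atTop,
          c * ((x : ℝ) / Real.log x) ≤ cntP (fun p => Late p ((T p w).1 * (T p w).2)) x :=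
  main M hM1 hM2

end Pool.Agent.Results.MP_1fb68e_nt.LocalShuffle
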